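import Pool.Agent.Helper14.T3.StL

/-!
# Project T3, module Unb3: back to the group with lower left entry divisible by a power of three
-/

set_option autoImplicit false

namespace Pool.Agent.Helper8.T3

open Pool.Agent.Helper14.T3 Pool.Agent.Helper78.W3 Pool.Agent.Helper14.W3
open Pool.Agent.Helper14.CV (Homog EqC act Tl)
open Pool.Agent.Helper76.TX (eX)
open Pool.Agent.Helper14.TT (eXb)

/-- The potential `G(3^r p, q)` with complex values. -/
private def Go (r : ℕ) (G : ℤ → ℤ → ℤ) : ℤ → ℤ → ℂ := fun p q => ((G (3 ^ r * p) q : ℤ) : ℂ)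

private lemma three_or (r : ℕ) {p q : ℤ} (h : p ≠ 0 ∨ q ≠ 0) : (3 ^ r * p ≠ 0 ∨ q ≠ 0) := by
  rcases h with h0 | h0
  · exact Or.inl (mul_ne_zero (by positivity) h0)
  · exact Or.inr h0

private lemma sym_Go {r s : ℕ} {G : ℤ → ℤ → ℤ} (h : Sym3 r s G) : Sym3 0 (r + s) (Go r G) := by
  refine ⟨?_, ?_⟩
  · intro k p q hk hpq
    have e := h.1 k (3 ^ r * p) q hk (three_or r hpq)
    have e1 : 3 ^ r * (k * p) = k * (3 ^ r * p) := by ring
    simp only [Go]
    rw [e1, e]
  · intro a b c d hdet _ hc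
    obtain ⟨c', hc'⟩ := hc
    obtain ⟨k, hk⟩ := h.2 a (3 ^ r * b) (3 ^ s * c') d
      (by rw [← hdet, hc', pow_add]; ring) (Dvd.intro _ rfl) (Dvd.intro _ rfl)
    refine ⟨(k : ℂ), ?_⟩
    intro p q hpq
    have e := hk (3 ^ r * p) q (three_or r hpq)
    simp only [act, Go] at e ⊢
    have e1 : 3 ^ r * (a * p + b * q) = a * (3 ^ r * p) + 3 ^ r * b * q := by ring
    have e2 : c * p + d * q = 3 ^ s * c' * (3 ^ r * p) + d * q := by
      rw [hc', pow_add]
      ring
    rw [e1, e2, e, Int.cast_add]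

private lemma Tl_Go (l r : ℕ) (G : ℤ → ℤ → ℤ) : Tl l 1 (Go r G) = Go r (Tl l (3 ^ r) G) := by
  funext p q
  simp only [Tl, Go]
  rw [Int.cast_add, Int.cast_sum]
  congr 1
  · congr 2
    ring
  · refine Finset.sum_congr rfl ?_
    intro j _
    congr 2
    ring

private lemma Go_add (r : ℕ) (G H : ℤ → ℤ → ℤ) : Go r (G + H) = Go r G + Go r H := by
  funext p q
  simp only [Go, Pi.add_apply, Int.cast_add]

private lemma Go_sub (r : ℕ) (G H : ℤ → ℤ → ℤ) : Go r (G - H) = Go r G - Go r H := by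
  funext p q
  simp only [Go, Pi.sub_apply, Int.cast_sub]

private lemma Bo_Go (r : ℕ) (G : ℤ → ℤ → ℤ) : Bo 1 (Go r G) = Go r (Bo (3 ^ r) G) := by
  unfold Bo
  rw [Go_sub, Go_add, Tl_Go, Tl_Go, Tl_Go]

private lemma homog_Tl {G : ℤ → ℤ → ℤ} (l : ℕ) (hl : 0 < l) (m : ℤ) (h : Homog G) :
    Homog (Tl l m G) := by
  intro k p q hk hpq
  have hl0 : (l : ℤ) ≠ 0 := by exact_mod_cast hl.ne'
  simp only [Tl]
  congr 1
  · have e := h k (l * p) q hk (by
      rcases hpq with h0 | h0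
      · exact Or.inl (mul_ne_zero hl0 h0)
      · exact Or.inr h0)
    rw [← e]
    congr 1
    ring
  · refine Finset.sum_congr rfl ?_
    intro j _
    have e := h k (p + m * j * q) (l * q) hk (by
      by_cases hq : q = 0
      · left
        rcases hpq with h0 | h0
        · rw [hq, mul_zero, add_zero]
          exact h0
        · exact absurd hq h0
      · exact Or.inr (mul_ne_zero hl0 hq))
    rw [← e]
    congr 1
    · ring
    · ring

private lemma homog_Bo {G : ℤ → ℤ → ℤ} (m : ℤ) (h : Homog G) : Homog (Bo m G) := by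
  have h7 := homog_Tl 7 (by norm_num) m h
  have h2 := homog_Tl 2 (by norm_num) m (homog_Tl 2 (by norm_num) m h)
  intro k p q hk hpq
  unfold Bo
  simp only [Pi.sub_apply, Pi.add_apply]
  rw [h7 k p q hk hpq, h k p q hk hpq, h2 k p q hk hpq]

private lemma iter_Tl_Go (l r : ℕ) (G : ℤ → ℤ → ℤ) (i : ℕ) :
    (Tl l 1)^[i] (Go r G) = Go r ((Tl l (3 ^ r))^[i] G) := by
  induction i with
  | zero => rfl
  | succ i ih => rw [Function.iterate_succ_apply', Function.iterate_succ_apply', ih, Tl_Go]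

private lemma iter_Bo_Go (r : ℕ) (G : ℤ → ℤ → ℤ) (i : ℕ) :
    (Bo 1)^[i] (Go r G) = Go r ((Bo (3 ^ r))^[i] G) := by
  induction i with
  | zero => rfl
  | succ i ih => rw [Function.iterate_succ_apply', Function.iterate_succ_apply', ih, Bo_Go]

private lemma iter_homog_Tl {G : ℤ → ℤ → ℤ} (l : ℕ) (hl : 0 < l) (m : ℤ) (h : Homog G) (i : ℕ) :
    Homog ((Tl l m)^[i] G) := by
  induction i with
  | zero => exact h
  | succ i ih =>
    rw [Function.iterate_succ_apply']
    exact homog_Tl l hl m ih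

private lemma iter_homog_Bo {G : ℤ → ℤ → ℤ} (m : ℤ) (h : Homog G) (i : ℕ) :
    Homog ((Bo m)^[i] G) := by
  induction i with
  | zero => exact h
  | succ i ih =>
    rw [Function.iterate_succ_apply']
    exact homog_Bo m ih

/-- `UNB3`. -/
theorem hUnb3 : Unb3 := by
  intro D r s G _ hG
  refine ⟨sym_Go hG, ?_⟩
  intro i j
  change evT D (Go r G) i j = _
  rw [evT_apply, iter_Tl_Go, iter_Bo_Go]
  have hH : Homog ((Bo (3 ^ r))^[j] ((Tl 2 (3 ^ r))^[i] G)) :=
    iter_homog_Bo _ (iter_homog_Tl 2 (by norm_num) _ hG.1 i) j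
  have e := hH (3 ^ r) 1 0 (by positivity) (Or.inl one_ne_zero)
  rw [mul_zero] at e
  unfold evTb eXb eX
  rw [Int.cast_sum]
  refine Finset.sum_congr rfl ?_
  intro a _
  simp only [Go]
  rw [e, zsmul_eq_mul, zsmul_eq_mul, Int.cast_mul, Int.cast_sub]
  push_cast
  rfl

end Pool.Agent.Helper8.T3
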