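import Pool.Agent.Helper28.T3.StC

/-!
# Project T3, module CNTq: the number of discriminants of reduced forms, even case
-/

set_option autoImplicit false

namespace Pool.Agent.Helper8.T3

open Pool.Agent.Helper28.T3

theorem hCNTq : StCLSq → StGODq → StCNTq := by
  classical
  intro hCLS hGOD
  obtain ⟨C, hC, hCLS⟩ := hCLS 18 (by norm_num)
  refine ⟨1944 * C, by positivity, ?_⟩
  intro r hr N hN S hS
  have hN1 : (1 : ℝ) ≤ (N : ℝ) := by exact_mod_cast hN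
  have hE0 : 0 ≤ EX (N : ℝ) := Real.rpow_nonneg (by linarith) _
  obtain ⟨I, hI, hG⟩ := hGOD (r : ℤ) (by rcases hr with h | h <;> simp [h])
  -- choose a form for each discriminant
  have hch : ∀ D : ℕ, ∃ q : ℤ × ℤ × ℤ × ℤ, D ∈ S → GT D q.1 q.2.1 q.2.2.1 q.2.2.2 := by
    intro D
    by_cases hD : D ∈ S
    · obtain ⟨-, -, a, b, c, d, h⟩ := hS D hD
      exact ⟨(a, b, c, d), fun _ => h⟩
    · exact ⟨(0, 0, 0, 0), fun h => absurd h hD⟩
  choose q hq using hch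
  let P : ℤ × ℤ × ℤ × ℤ → ℕ → Prop := fun t D =>
    (q D).1 % ((18 : ℕ) : ℤ) = t.1 ∧ (q D).2.1 % ((18 : ℕ) : ℤ) = t.2.1 ∧
      (q D).2.2.1 % ((18 : ℕ) : ℤ) = t.2.2.1 ∧ (q D).2.2.2 % ((18 : ℕ) : ℤ) = t.2.2.2
  have hcD : ∀ D ∈ S, cD (q D).1 (q D).2.1 (q D).2.2.1 (q D).2.2.2 = (D : ℤ) := by
    intro D hD
    exact (hq D hD).2.2.2.2.2.1
  have hsub : S ⊆ I.biUnion fun t => S.filter (P t) := by
    intro D hD
    have h1 : cD (q D).1 (q D).2.1 (q D).2.2.1 (q D).2.2.2 % 72 = (r : ℤ) := by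
      rw [hcD D hD]
      have := (hS D hD).2.1
      omega
    rw [Finset.mem_biUnion]
    exact ⟨_, hG _ _ _ _ h1, Finset.mem_filter.2 ⟨hD, rfl, rfl, rfl, rfl⟩⟩
  have hcard : ∀ t ∈ I, ((S.filter (P t)).card : ℝ) ≤
      Real.pi * (N : ℝ) / (4 * Real.sqrt 3 * ((18 : ℕ) : ℝ) ^ 4) + C * EX N := by
    intro t _
    have hinj : Set.InjOn q (S.filter (P t) : Finset ℕ) := by
      intro D hD D' hD' h
      have hD1 := (Finset.mem_filter.1 hD).1
      have hD1' := (Finset.mem_filter.1 hD').1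
      have e1 := hcD D hD1
      have e2 := hcD D' hD1'
      rw [h] at e1
      rw [e1] at e2
      exact_mod_cast e2
    rw [← Finset.card_image_of_injOn hinj]
    refine hCLS (N : ℝ) hN1 t.1 t.2.1 t.2.2.1 t.2.2.2 ((S.filter (P t)).image q) ?_
    intro u hu
    obtain ⟨D, hD, rfl⟩ := Finset.mem_image.1 hu
    obtain ⟨hDS, hP⟩ := Finset.mem_filter.1 hD
    obtain ⟨p1, p2, p3, p4⟩ := hP
    refine ⟨p1, p2, p3, p4, ?_, ?_⟩
    · rw [hcD D hDS]
      exact hq D hDS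
    · rw [hcD D hDS]
      have := (hS D hDS).1
      exact_mod_cast this
  have h1 : (S.card : ℝ) ≤ ∑ t ∈ I, ((S.filter (P t)).card : ℝ) := by
    have h2 : S.card ≤ ∑ t ∈ I, (S.filter (P t)).card :=
      (Finset.card_le_card hsub).trans Finset.card_biUnion_le
    exact_mod_cast h2
  have hs : (1.73 : ℝ) < Real.sqrt 3 := by
    rw [Real.lt_sqrt (by norm_num)]
    norm_num
  have hB0 : 0 ≤ Real.pi * (N : ℝ) / (4 * Real.sqrt 3 * ((18 : ℕ) : ℝ) ^ 4) + C * EX N := by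
    have hpi := Real.pi_pos
    positivity
  have h3 : ∑ t ∈ I, ((S.filter (P t)).card : ℝ) ≤
      1944 * (Real.pi * (N : ℝ) / (4 * Real.sqrt 3 * ((18 : ℕ) : ℝ) ^ 4) + C * EX N) := by
    have h4 := Finset.sum_le_card_nsmul I (fun t => ((S.filter (P t)).card : ℝ)) _ hcard
    rw [nsmul_eq_mul] at h4
    refine h4.trans (mul_le_mul_of_nonneg_right ?_ hB0)
    exact_mod_cast hI
  have h5 : 1944 * (Real.pi * (N : ℝ) / (4 * Real.sqrt 3 * ((18 : ℕ) : ℝ) ^ 4)) ≤ (N : ℝ) / 116 := by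
    have hpi := Real.pi_lt_d2
    have hs0 : (0 : ℝ) < 4 * Real.sqrt 3 * ((18 : ℕ) : ℝ) ^ 4 := by positivity
    rw [← mul_div_assoc, div_le_iff₀ hs0]
    push_cast
    nlinarith
  linarith

end Pool.Agent.Helper8.T3
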